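import Pool.Agent.Helper15.LR.Defs3

set_option autoImplicit false

open Finset Filter
open scoped Classical Topology

namespace Pool.Agent.Helper15.LR

noncomputable section

lemma R9_small (κ : ℝ) (hκ : 0 < κ) : ∀ᶠ n : ℕ in atTop, SS n ≤ κ * n := by
  have h1 : Tendsto (fun x : ℝ => Real.log x / x) atTop (𝓝 0) := by
    have := Real.isLittleO_log_id_atTop
    exact this.tendsto_div_nhds_zero
  have h2 : ∀ᶠ x : ℝ in atTop, Real.log x / x < κ ^ 2 :=
    h1.eventually (gt_mem_nhds (by positivity))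
  have h3 : ∀ᶠ n : ℕ in atTop, Real.log (n : ℝ) / n < κ ^ 2 :=
    (tendsto_natCast_atTop_atTop (R := ℝ)).eventually h2
  filter_upwards [h3, eventually_gt_atTop 0] with n hn hn0
  have hn0' : (0 : ℝ) < n := by exact_mod_cast hn0
  have h4 : Real.log n ≤ κ ^ 2 * n := by
    rw [div_lt_iff₀ hn0'] at hn
    exact hn.le
  unfold SS
  apply Real.sqrt_le_iff.2
  constructor
  · positivity
  · nlinarith [mul_le_mul_of_nonneg_left h4 hn0'.le]

lemma R9_large (C : ℝ) : ∀ᶠ n : ℕ in atTop, C ≤ SS n := by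
  have h1 : Tendsto (fun n : ℕ => (n : ℝ)) atTop atTop := tendsto_natCast_atTop_atTop
  filter_upwards [h1.eventually (eventually_ge_atTop (Real.exp 1)),
    h1.eventually (eventually_ge_atTop (C ^ 2))] with n h2 h3
  have hn : (1 : ℝ) ≤ Real.log n := by
    have := Real.log_le_log (Real.exp_pos 1) h2
    simpa using this
  unfold SS
  have h4 : C ^ 2 ≤ n * Real.log n := by
    have hn0 : (0 : ℝ) ≤ n := Nat.cast_nonneg n
    nlinarith
  exact (le_abs_self C).trans (Real.abs_le_sqrt h4)

/-- R9: the main theorem from the dense case and the leftover lemma. -/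
theorem R9 (h3 : Main3_stmt) (hL : Leftover_stmt) : Main2_stmt := by
  intro ε hε
  obtain ⟨ρ₀, hρ₀, hleft⟩ := hL ε hε
  have hc : 0 < min ρ₀ 1 := lt_min hρ₀ one_pos
  have hε' : 0 < min (ε / 2) 1 := lt_min (by positivity) one_pos
  have hmain := h3 (min (ε / 2) 1) (min ρ₀ 1) hε' (min_le_right _ _) hc
  filter_upwards [hleft, hmain, R9_small (1 / (2 * ε)) (by positivity), R9_large (2 / ε),
    eventually_ge_atTop 2] with n hleft' hmain' hsmall hlarge hn V _ F L D hV hF hdeg hlist
  have hnR : (2 : ℝ) ≤ n := by exact_mod_cast hn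
  have hS : 0 ≤ SS n := Real.sqrt_nonneg _
  have hD0 : 0 ≤ D := by
    have hne : Nonempty V := by
      rw [← Fintype.card_pos_iff, hV]
      omega
    obtain ⟨v⟩ := hne
    exact (Nat.cast_nonneg _).trans (hdeg v)
  by_cases hD : D ≤ ρ₀ * n
  · exact hleft' V F L D hV hF hD0 hD hdeg hlist
  · push Not at hD
    obtain ⟨D', hD'⟩ : ∃ D', D' = min D n := ⟨_, rfl⟩
    have hD'D : D' ≤ D := hD' ▸ min_le_left _ _
    have hD'n : D' ≤ n := hD' ▸ min_le_right _ _
    have hdeg' : ∀ v, (dg F v : ℝ) ≤ D' := by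
      intro v
      rw [hD']
      refine le_min (hdeg v) ?_
      have h1 : dg F v ≤ Fintype.card V := by
        unfold dg
        exact Finset.card_le_univ _
      rw [hV] at h1
      exact_mod_cast h1
    have hD'low : min ρ₀ 1 * n ≤ D' := by
      rw [hD']
      refine le_min ?_ ?_
      · exact (mul_le_mul_of_nonneg_right (min_le_left _ _) (by positivity)).trans hD.le
      · exact mul_le_of_le_one_left (by positivity) (min_le_right _ _)
    have hεS : 1 ≤ ε / 2 * SS n := by
      have h1 : ε / 2 * (2 / ε) ≤ ε / 2 * SS n := mul_le_mul_of_nonneg_left hlarge (by positivity)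
      have h2 : ε / 2 * (2 / ε) = 1 := by field_simp
      linarith
    have hεS2 : ε * SS n ≤ n / 2 := by
      have h1 : ε * SS n ≤ ε * (1 / (2 * ε) * n) := mul_le_mul_of_nonneg_left hsmall hε.le
      have h2 : ε * (1 / (2 * ε) * n) = n / 2 := by field_simp
      linarith
    have hpos : 0 ≤ D' + ε / 2 * SS n := by
      have : 0 ≤ D' := le_trans (by positivity) hD'low
      linarith
    obtain ⟨m, hm⟩ : ∃ m : ℕ, m = ⌈D' + ε / 2 * SS n⌉₊ := ⟨_, rfl⟩
    have hm1 : D' + ε / 2 * SS n ≤ m := hm ▸ Nat.le_ceil _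
    have hm2 : (m : ℝ) < D' + ε / 2 * SS n + 1 := hm ▸ Nat.ceil_lt_add_one hpos
    have hm3 : (m : ℝ) ≤ D' + ε * SS n := by linarith
    -- truncated lists
    have hex : ∀ e, ∃ S : Finset ℕ, (e ∈ F → S ⊆ L e ∧ S.card = m) := by
      intro e
      by_cases he : e ∈ F
      · have h1 : m ≤ (L e).card := by
          have h2 := hlist e he
          have h4 : (m : ℝ) ≤ ((L e).card : ℝ) := by linarith
          exact_mod_cast h4
        obtain ⟨S, hS1, hS2⟩ := Finset.exists_subset_card_eq h1
        exact ⟨S, fun _ => ⟨hS1, hS2⟩⟩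
      · exact ⟨∅, fun h => absurd h he⟩
    choose L' hL' using hex
    have hres : LC F L' := by
      refine hmain' V F m L' hV hF ?_ ?_ (fun e he => (hL' e he).2) ?_
      · have : 0 ≤ ε / 2 * SS n := by positivity
        linarith
      · have h1 : (m : ℝ) ≤ 2 * n := by linarith
        exact_mod_cast h1
      · intro v
        have h1 := hdeg' v
        have h2 : min (ε / 2) 1 * SS n ≤ ε / 2 * SS n :=
          mul_le_mul_of_nonneg_right (min_le_left _ _) hS
        linarith
    obtain ⟨f, hf1, hf2⟩ := hres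
    exact ⟨f, fun e he => (hL' e he).1 (hf1 e he), hf2⟩

end

end Pool.Agent.Helper15.LR
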